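import Pool.Agent.Y264.QR.Stm2
import Pool.Agent.Y274.QE.Fin

/-!
Project QR (helper264), job QR-COV (helper219): a closed surface is covered by disjoint almost
isometric squares up to a small set.
-/

set_option autoImplicit false

open Set Filter Topology MeasureTheory Metric
open scoped Real ContDiff
open Pool.Agent.Y262.QE Pool.Agent.Y264.QR

noncomputable section

namespace Pool.Agent.Y219.QR

theorem sq_closed (r : ℝ) : IsClosed (Sq 0 r) := by
  have h1 : IsClosed {z : ℂ | |z.re - (0 : ℂ).re| ≤ r} :=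
    isClosed_le ((Complex.continuous_re.sub continuous_const).abs) continuous_const
  have h2 : IsClosed {z : ℂ | |z.im - (0 : ℂ).im| ≤ r} :=
    isClosed_le ((Complex.continuous_im.sub continuous_const).abs) continuous_const
  exact h1.inter h2

theorem sq_norm {r : ℝ} {z : ℂ} (hz : z ∈ Sq 0 r) : ‖z‖ ≤ 2 * r := by
  have h1 := Complex.norm_le_abs_re_add_abs_im z
  have h2 : |z.re| ≤ r := by simpa using hz.1
  have h3 : |z.im| ≤ r := by simpa using hz.2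
  linarith

theorem sq_cpt (r : ℝ) : IsCompact (Sq 0 r) :=
  Metric.isCompact_of_isClosed_isBounded (sq_closed r)
    (Metric.isBounded_closedBall.subset (fun z hz => by
      rw [mem_closedBall, dist_zero_right]; exact sq_norm hz) : Bornology.IsBounded (Sq 0 r))

theorem ball_sq (r : ℝ) : closedBall (0 : ℂ) r ⊆ Sq 0 r := by
  intro z hz
  rw [mem_closedBall, dist_zero_right] at hz
  refine ⟨?_, ?_⟩
  · simpa using (Complex.abs_re_le_norm z).trans hz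
  · simpa using (Complex.abs_im_le_norm z).trans hz

theorem zero_mem_sq {r : ℝ} (hr : 0 < r) : (0 : ℂ) ∈ Sq 0 r :=
  ball_sq r (mem_closedBall_self hr.le)

/-- the parallelogram -/
def Pq (L : ℂ →L[ℝ] ℂ) (z : ℂ) (r : ℝ) : Set ℂ := (fun y => z + L y) '' Sq 0 r

theorem Pq_closed (L : ℂ →L[ℝ] ℂ) (z : ℂ) (r : ℝ) : IsClosed (Pq L z r) :=
  ((sq_cpt r).image (by fun_prop)).isClosed

theorem Pq_sub {L : ℂ →L[ℝ] ℂ} {z : ℂ} {r C1 : ℝ} (h : 2 * ‖L‖ ≤ C1) (hr : 0 < r) :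
    Pq L z r ⊆ closedBall z (C1 * r) := by
  rintro _ ⟨y, hy, rfl⟩
  rw [mem_closedBall, dist_eq_norm, add_sub_cancel_left]
  calc ‖L y‖ ≤ ‖L‖ * ‖y‖ := L.le_opNorm y
    _ ≤ ‖L‖ * (2 * r) := mul_le_mul_of_nonneg_left (sq_norm hy) (norm_nonneg _)
    _ = 2 * ‖L‖ * r := by ring
    _ ≤ C1 * r := mul_le_mul_of_nonneg_right h hr.le

theorem Pq_vol (L : ℂ →L[ℝ] ℂ) (z : ℂ) (r C1 C2 : ℝ) (hr : 0 < r) (hC1 : 0 < C1)
    (hC2 : 1 ≤ C2 * |L.det|) :
    volume (closedBall z (3 * (C1 * r))) ≤ (9 * C1 ^ 2 * C2).toNNReal * volume (Pq L z r) := by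
  have hd0 : 0 ≤ |L.det| := abs_nonneg _
  have hC20 : 0 < C2 := by
    by_contra h
    push Not at h
    nlinarith
  have h1 : volume (Pq L z r) = ENNReal.ofReal |L.det| * volume (Sq 0 r) := by
    have e : Pq L z r = (fun y => z + y) '' (L '' Sq 0 r) := by
      unfold Pq; rw [image_image]
    rw [e, Set.image_add_left, measure_preimage_add]
    exact Measure.addHaar_image_continuousLinearMap volume L (Sq 0 r)
  have h2 : volume (closedBall z (3 * (C1 * r))) =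
      ENNReal.ofReal ((3 * (C1 * r)) ^ 2) * volume (ball (0 : ℂ) 1) := by
    rw [Measure.addHaar_closedBall volume z (by positivity), Complex.finrank_real_complex]
  have h3 : volume (closedBall (0 : ℂ) r) = ENNReal.ofReal (r ^ 2) * volume (ball (0 : ℂ) 1) := by
    rw [Measure.addHaar_closedBall volume 0 hr.le, Complex.finrank_real_complex]
  have h4 : volume (closedBall (0 : ℂ) r) ≤ volume (Sq 0 r) := measure_mono (ball_sq r)
  rw [h1, h2]
  rw [h3] at h4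
  calc ENNReal.ofReal ((3 * (C1 * r)) ^ 2) * volume (ball (0 : ℂ) 1)
      ≤ ENNReal.ofReal (9 * C1 ^ 2 * C2 * (|L.det| * r ^ 2)) * volume (ball (0 : ℂ) 1) := by
        gcongr
        have : (3 * (C1 * r)) ^ 2 = 9 * C1 ^ 2 * r ^ 2 * 1 := by ring
        rw [this]
        calc 9 * C1 ^ 2 * r ^ 2 * 1 ≤ 9 * C1 ^ 2 * r ^ 2 * (C2 * |L.det|) :=
              mul_le_mul_of_nonneg_left hC2 (by positivity)
          _ = _ := by ring
    _ = (9 * C1 ^ 2 * C2).toNNReal * (ENNReal.ofReal |L.det| *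
          (ENNReal.ofReal (r ^ 2) * volume (ball (0 : ℂ) 1))) := by
        rw [ENNReal.ofReal_mul (by positivity), ENNReal.ofReal_mul hd0]
        unfold ENNReal.ofReal
        ring
    _ ≤ _ := by gcongr

theorem Pq_int {A : ℂ →L[ℝ] ℂ} (hA : A.det ≠ 0) (z : ℂ) {r : ℝ} (hr : 0 < r) :
    (interior (Pq A.inverse z r)).Nonempty := by
  obtain ⟨e, he⟩ : ∃ e : ℂ ≃L[ℝ] ℂ, (e : ℂ →L[ℝ] ℂ) = A :=
    ⟨A.toContinuousLinearEquivOfDetNeZero hA, A.coe_toContinuousLinearEquivOfDetNeZero hA⟩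
  have hinv : A.inverse = (e.symm : ℂ →L[ℝ] ℂ) := by
    rw [← he, ContinuousLinearMap.inverse_equiv]
  refine ⟨z, mem_interior.2 ⟨(fun y => z + e.symm y) '' ball 0 r, ?_, ?_, ?_⟩⟩
  · rintro _ ⟨y, hy, rfl⟩
    refine ⟨y, ball_sq r (ball_subset_closedBall hy), ?_⟩
    simp only [hinv]; rfl
  · have h1 : IsOpenMap (fun y : ℂ => z + e.symm y) :=
      (isOpenMap_add_left z).comp e.symm.toHomeomorph.isOpenMap
    exact h1 _ isOpen_ball
  · exact ⟨0, mem_ball_self hr, by simp⟩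

theorem det_inv {A : ℂ →L[ℝ] ℂ} (hA : A.det ≠ 0) : |A.det| * |A.inverse.det| = 1 := by
  obtain ⟨e, he⟩ : ∃ e : ℂ ≃L[ℝ] ℂ, (e : ℂ →L[ℝ] ℂ) = A :=
    ⟨A.toContinuousLinearEquivOfDetNeZero hA, A.coe_toContinuousLinearEquivOfDetNeZero hA⟩
  have hinv : A.inverse = (e.symm : ℂ →L[ℝ] ℂ) := by
    rw [← he, ContinuousLinearMap.inverse_equiv]
  rw [hinv, ← he, ← abs_mul]
  have h1 : ((e : ℂ →L[ℝ] ℂ).comp (e.symm : ℂ →L[ℝ] ℂ)) = ContinuousLinearMap.id ℝ ℂ := by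
    ext <;> simp
  have h2 : ((e : ℂ →L[ℝ] ℂ).comp (e.symm : ℂ →L[ℝ] ℂ)).det = 1 := by
    rw [h1]; simp [ContinuousLinearMap.det]
  have h3 : ((e : ℂ →L[ℝ] ℂ).comp (e.symm : ℂ →L[ℝ] ℂ)).det =
      (e : ℂ →L[ℝ] ℂ).det * (e.symm : ℂ →L[ℝ] ℂ).det := by
    simp only [ContinuousLinearMap.det]
    exact LinearMap.det_comp _ _
  rw [← h3, h2, abs_one]

theorem cont_inv {A : ℂ → ℂ →L[ℝ] ℂ} {T : Set ℂ} (hA : ContinuousOn A T)
    (hd : ∀ z ∈ T, (A z).det ≠ 0) : ContinuousOn (fun z => (A z).inverse) T := by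
  intro z hz
  obtain ⟨e, he⟩ : ∃ e : ℂ ≃L[ℝ] ℂ, (e : ℂ →L[ℝ] ℂ) = A z :=
    ⟨(A z).toContinuousLinearEquivOfDetNeZero (hd z hz),
      (A z).coe_toContinuousLinearEquivOfDetNeZero (hd z hz)⟩
  have h1 : ContinuousAt ContinuousLinearMap.inverse (A z) := by
    rw [← he]
    exact (contDiffAt_map_inverse (n := 0) e).continuousAt
  exact h1.comp_continuousWithinAt (hA z hz)

/-- a finite family of disjoint almost isometric squares in `V` which covers `S` up to `ε` -/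
def Good {M : Type} [TopologicalSpace M] [MeasurableSpace M] (D : Data M) (μ : Measure M)
    (φ : M → ℝ) (η : ℝ) (S V : Set M) (ε : ENNReal) : Prop :=
  ∃ (ι : Type) (_ : Fintype ι) (r : ι → ℝ) (Φ : ι → ℂ → M),
    (∀ k, 0 < r k ∧ Pt D μ η (r k) (Φ k)) ∧
    (∀ k l, k ≠ l → Disjoint (Φ k '' Sq 0 (r k)) (Φ l '' Sq 0 (r l))) ∧
    (∀ k, ∀ y ∈ Sq 0 (r k), |φ (Φ k y) - φ (Φ k 0)| ≤ η) ∧
    (∀ k, Φ k '' Sq 0 (r k) ⊆ V) ∧ μ (S \ ⋃ k, Φ k '' Sq 0 (r k)) < ε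

theorem one (hLoc : StLoc) {M : Type} [MetricSpace M] [CompactSpace M] [MeasurableSpace M]
    [BorelSpace M] (μ : Measure M) (D : Data M) (hD : D.IsSurf μ) (φ : C(M, ℝ)) (η : ℝ)
    (hη : 0 < η) (i : Fin D.N) (F : Set M) (hF : IsClosed F) (ε : ENNReal) (hε : ε ≠ 0) :
    Good D μ φ η (D.U i \ F) Fᶜ ε := by
  have hfin : IsFiniteMeasure μ := (Pool.Agent.Y274.QE.Fin.fin M μ D hD).1
  have hV : IsOpen (D.U i \ F) := (hD.openU i).sdiff hF
  have hε2 : ε / 2 ≠ 0 := (ENNReal.half_pos hε).ne'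
  obtain ⟨K, hKV, hK, hKμ⟩ := hV.measurableSet.exists_isCompact_sdiff_lt (μ := μ)
    (measure_ne_top μ _) hε2
  -- the chart
  obtain ⟨T', hT'⟩ : ∃ T' : Set ℂ, T' = D.T i ∩ D.ψ i ⁻¹' (D.U i \ F) := ⟨_, rfl⟩
  have hT'o : IsOpen T' := by
    rw [hT']; exact (hD.contψ i).isOpen_inter_preimage (hD.openT i) hV
  have hK' : IsCompact (D.φ i '' K) :=
    hK.image_of_continuousOn ((hD.contφ i).mono (fun x hx => (hKV hx).1))
  have hK'T : ∀ z ∈ D.φ i '' K, z ∈ T' := by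
    rintro _ ⟨x, hx, rfl⟩
    rw [hT']
    refine ⟨⟨x, (hKV hx).1, rfl⟩, ?_⟩
    rw [mem_preimage, hD.left i x (hKV hx).1]
    exact hKV hx
  have hT'T : T' ⊆ D.T i := by rw [hT']; exact inter_subset_left
  have hφψ : ∀ z ∈ D.T i, D.φ i (D.ψ i z) = z := by
    rintro _ ⟨x, hx, rfl⟩
    rw [hD.left i x hx]
  have hinvc : ContinuousOn (fun z => (D.A i z).inverse) (D.T i) := cont_inv (hD.contA i) (hD.det i)
  obtain ⟨B1, hB1⟩ := hK'.exists_bound_of_continuousOn (hinvc.mono (fun z hz => hT'T (hK'T z hz)))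
  have hdetc : ContinuousOn (fun z => (D.A i z).det) (D.T i) := fun z hz =>
    (ContinuousLinearMap.continuous_det.continuousAt.comp_continuousWithinAt (hD.contA i z hz))
  obtain ⟨B2, hB2⟩ := hK'.exists_bound_of_continuousOn (hdetc.mono (fun z hz => hT'T (hK'T z hz)))
  obtain ⟨C1, hC1d⟩ : ∃ C1 : ℝ, C1 = 2 * |B1| + 1 := ⟨_, rfl⟩
  have hC1 : 0 < C1 := by rw [hC1d]; positivity
  -- the index set of Vitali's theorem
  obtain ⟨L, hLd⟩ : ∃ L : ℂ → ℂ →L[ℝ] ℂ, L = fun z => (D.A i z).inverse := ⟨_, rfl⟩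
  obtain ⟨t, ht⟩ : ∃ t : Set (ℂ × ℝ), t = {a | a.1 ∈ D.φ i '' K ∧ 0 < a.2 ∧ Pq (L a.1) a.1 a.2 ⊆ T' ∧
      Pt D μ η a.2 (fun y => D.ψ i (a.1 + L a.1 y)) ∧
      ∀ y ∈ Sq 0 a.2, |φ (D.ψ i (a.1 + L a.1 y)) - φ (D.ψ i (a.1 + L a.1 0))| ≤ η} := ⟨_, rfl⟩
  have hL2 : ∀ z ∈ D.φ i '' K, 2 * ‖L z‖ ≤ C1 := fun z hz => by
    have := (hB1 z hz).trans (le_abs_self B1)
    rw [hLd, hC1d]; linarith
  have hdetL : ∀ z ∈ D.φ i '' K, 1 ≤ |B2| * |(L z).det| := fun z hz => by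
    have h1 := det_inv (hD.det i z (hT'T (hK'T z hz)))
    have h2 : |(D.A i z).det| ≤ |B2| := (hB2 z hz).trans (le_abs_self B2)
    rw [hLd]
    calc (1 : ℝ) = |(D.A i z).det| * |(D.A i z).inverse.det| := h1.symm
      _ ≤ _ := mul_le_mul_of_nonneg_right h2 (abs_nonneg _)
  obtain ⟨u, hut, huc, hud, hu0⟩ := Vitali.exists_disjoint_covering_ae (volume : Measure ℂ)
    (D.φ i '' K) t (9 * C1 ^ 2 * |B2|).toNNReal (fun a => C1 * a.2) (fun a => a.1)
    (fun a => Pq (L a.1) a.1 a.2)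
    (fun a ha => by
      rw [ht] at ha
      exact Pq_sub (hL2 _ ha.1) ha.2.1)
    (fun a ha => by
      rw [ht] at ha
      exact Pq_vol _ _ _ _ _ ha.2.1 hC1 (hdetL _ ha.1))
    (fun a ha => by
      rw [ht] at ha
      rw [hLd]
      exact Pq_int (hD.det i _ (hT'T (hK'T _ ha.1))) _ ha.2.1)
    (fun a _ => Pq_closed _ _ _)
    (fun z hz δ hδ => by
      obtain ⟨r0, hr0, hloc⟩ := hLoc M μ D hD i z (hT'T (hK'T z hz)) η hη
      obtain ⟨ρ, hρ, hρT⟩ := Metric.isOpen_iff.1 hT'o z (hK'T z hz)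
      have hcz : ContinuousAt (fun w => φ (D.ψ i w)) z :=
        φ.continuous.continuousAt.comp ((hD.contψ i).continuousAt
          ((hD.openT i).mem_nhds (hT'T (hK'T z hz))))
      obtain ⟨ρ', hρ', hosc⟩ := Metric.continuousAt_iff.1 hcz η hη
      obtain ⟨s, hs⟩ : ∃ s : ℝ, s = min (min (r0 / 2) (δ / C1)) (min ρ ρ' / (2 * C1)) := ⟨_, rfl⟩
      have hs0 : 0 < s := by
        rw [hs]
        exact lt_min (lt_min (by positivity) (by positivity))
          (div_pos (lt_min hρ hρ') (by positivity))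
      have hs1 : s < r0 := by
        have : s ≤ r0 / 2 := by rw [hs]; exact (min_le_left _ _).trans (min_le_left _ _)
        linarith
      have hs2 : C1 * s ≤ δ := by
        have : s ≤ δ / C1 := by rw [hs]; exact (min_le_left _ _).trans (min_le_right _ _)
        rw [le_div_iff₀ hC1] at this
        linarith
      have hs3 : C1 * s < min ρ ρ' := by
        have h1 : s ≤ min ρ ρ' / (2 * C1) := by rw [hs]; exact min_le_right _ _
        rw [le_div_iff₀ (by positivity)] at h1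
        have h2 : 0 < C1 * s := by positivity
        linarith
      have hsub : Pq (L z) z s ⊆ closedBall z (C1 * s) := Pq_sub (hL2 z hz) hs0
      have hdist : ∀ y ∈ Sq 0 s, dist (z + L z y) z < ρ' := fun y hy => by
        have := hsub ⟨y, hy, rfl⟩
        rw [mem_closedBall] at this
        exact lt_of_le_of_lt this (hs3.trans_le (min_le_right _ _))
      refine ⟨(z, s), ?_, hs2, rfl⟩
      rw [ht]
      refine ⟨hz, hs0, ?_, ?_, ?_⟩
      · refine hsub.trans (fun w hw => hρT ?_)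
        rw [mem_closedBall] at hw
        exact lt_of_le_of_lt hw (hs3.trans_le (min_le_left _ _))
      · rw [hLd]; exact (hloc s hs0 hs1).2
      · intro y hy
        have h1 := hosc (hdist y hy)
        simp only [map_zero, add_zero]
        rw [Real.dist_eq] at h1
        exact h1.le)
  -- the images
  obtain ⟨Φ, hΦ⟩ : ∃ Φ : (ℂ × ℝ) → ℂ → M, Φ = fun a y => D.ψ i (a.1 + L a.1 y) := ⟨_, rfl⟩
  have himg : ∀ a, Φ a '' Sq 0 a.2 = D.ψ i '' Pq (L a.1) a.1 a.2 := fun a => by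
    rw [hΦ]; unfold Pq; rw [image_image]
  have hcl : ∀ a ∈ u, IsClosed (Φ a '' Sq 0 a.2) := fun a ha => by
    have := hut ha
    rw [ht] at this
    rw [hΦ]
    exact ((sq_cpt a.2).image_of_continuousOn this.2.2.2.1.cont).isClosed
  have hnull : μ (K \ ⋃ a ∈ u, Φ a '' Sq 0 a.2) = 0 := by
    have hmeas : MeasurableSet (K \ ⋃ a ∈ u, Φ a '' Sq 0 a.2) :=
      hK.measurableSet.diff (MeasurableSet.biUnion huc (fun a ha => (hcl a ha).measurableSet))
    rw [hD.area i _ (fun x hx => (hKV hx.1).1) hmeas]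
    have hsub : D.φ i '' (K \ ⋃ a ∈ u, Φ a '' Sq 0 a.2) ⊆
        D.φ i '' K \ ⋃ a ∈ u, Pq (L a.1) a.1 a.2 := by
      rintro _ ⟨x, ⟨hx1, hx2⟩, rfl⟩
      refine ⟨⟨x, hx1, rfl⟩, fun h => hx2 ?_⟩
      rw [mem_iUnion₂] at h ⊢
      obtain ⟨a, ha, hxa⟩ := h
      refine ⟨a, ha, ?_⟩
      rw [himg]
      exact ⟨_, hxa, hD.left i x (hKV hx1).1⟩
    have h0 : volume (D.φ i '' (K \ ⋃ a ∈ u, Φ a '' Sq 0 a.2)) = 0 := measure_mono_null hsub hu0
    exact setLIntegral_measure_zero _ _ h0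
  -- a finite subfamily
  have : Countable u := huc.to_subtype
  have hInt : (⋂ s : Finset u, K \ ⋃ a ∈ s, Φ a.1 '' Sq 0 a.1.2) =
      K \ ⋃ a ∈ u, Φ a '' Sq 0 a.2 := by
    ext x
    rw [mem_iInter]
    constructor
    · intro h
      refine ⟨(h ∅).1, fun hx => ?_⟩
      rw [mem_iUnion₂] at hx
      obtain ⟨a, ha, hxa⟩ := hx
      refine (h {⟨a, ha⟩}).2 ?_
      rw [mem_iUnion₂]
      exact ⟨⟨a, ha⟩, Finset.mem_singleton_self _, hxa⟩
    · intro h s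
      refine ⟨h.1, fun hx => h.2 ?_⟩
      rw [mem_iUnion₂] at hx ⊢
      obtain ⟨a, -, hxa⟩ := hx
      exact ⟨a.1, a.2, hxa⟩
  have hlim := tendsto_measure_iInter_atTop (μ := μ)
    (s := fun s : Finset u => K \ ⋃ a ∈ s, Φ a.1 '' Sq 0 a.1.2)
    (fun s => (hK.measurableSet.diff (Finset.measurableSet_biUnion s
      (fun a _ => (hcl a.1 a.2).measurableSet))).nullMeasurableSet)
    (fun s s' hss x hx => ⟨hx.1, fun h => hx.2 (by
      rw [mem_iUnion₂] at h ⊢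
      obtain ⟨a, ha, hxa⟩ := h
      exact ⟨a, hss ha, hxa⟩)⟩) ⟨∅, measure_ne_top _ _⟩
  rw [hInt, hnull] at hlim
  obtain ⟨s, hs⟩ := (hlim.eventually (gt_mem_nhds (pos_iff_ne_zero.2 hε2))).exists
  simp only [Function.comp] at hs
  have hmem : ∀ a : {a // a ∈ s}, a.1.1 ∈ t := fun a => hut a.1.2
  have hT'im : ∀ a : {a // a ∈ s}, Φ a.1.1 '' Sq 0 a.1.1.2 ⊆ Fᶜ := fun a => by
    have h := hmem a
    rw [ht] at h
    rw [himg]
    rintro _ ⟨w, hw, rfl⟩
    have := h.2.2.1 hw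
    rw [hT'] at this
    exact this.2.2
  refine ⟨{a // a ∈ s}, inferInstance, fun a => a.1.1.2, fun a => Φ a.1.1, fun a => ?_,
    fun a b hab => ?_, fun a => ?_, hT'im, ?_⟩
  · have h := hmem a
    rw [ht] at h
    rw [hΦ]
    exact ⟨h.2.1, h.2.2.2.1⟩
  · have hne : a.1.1 ≠ b.1.1 := fun h => hab (Subtype.ext (Subtype.ext h))
    have hdis := hud a.1.2 b.1.2 hne
    have ha := hmem a
    have hb := hmem b
    rw [ht] at ha hb
    rw [himg, himg]
    rw [Set.disjoint_left]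
    rintro _ ⟨w, hw, rfl⟩ ⟨w', hw', hww⟩
    have e1 := hφψ w (hT'T (ha.2.2.1 hw))
    have e2 := hφψ w' (hT'T (hb.2.2.1 hw'))
    have e3 : w' = w := by rw [← e1, ← e2, hww]
    rw [e3] at hw'
    exact Set.disjoint_left.1 hdis hw hw'
  · have h := hmem a
    rw [ht] at h
    rw [hΦ]
    exact h.2.2.2.2
  · have hsub : (D.U i \ F) \ ⋃ a : {a // a ∈ s}, Φ a.1.1 '' Sq 0 a.1.1.2 ⊆
        ((D.U i \ F) \ K) ∪ (K \ ⋃ a ∈ s, Φ a.1 '' Sq 0 a.1.2) := by
      rintro x ⟨hx1, hx2⟩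
      by_cases hxK : x ∈ K
      · refine Or.inr ⟨hxK, fun h => hx2 ?_⟩
        rw [mem_iUnion₂] at h
        obtain ⟨a, ha, hxa⟩ := h
        rw [mem_iUnion]
        exact ⟨⟨a, ha⟩, hxa⟩
      · exact Or.inl ⟨hx1, hxK⟩
    calc _ ≤ _ := measure_mono hsub
      _ ≤ _ := measure_union_le _ _
      _ < ε / 2 + ε / 2 := ENNReal.add_lt_add hKμ hs
      _ = ε := ENNReal.add_halves ε

theorem steps (hLoc : StLoc) {M : Type} [MetricSpace M] [CompactSpace M] [MeasurableSpace M]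
    [BorelSpace M] (μ : Measure M) (D : Data M) (hD : D.IsSurf μ) (φ : C(M, ℝ)) (η : ℝ)
    (hη : 0 < η) (m : ℕ) : ∀ ε : ENNReal, ε ≠ 0 →
    Good D μ φ η (⋃ (j : Fin D.N) (_ : (j : ℕ) < m), D.U j) univ ε := by
  induction m with
  | zero =>
    intro ε hε
    refine ⟨Empty, inferInstance, fun k => k.elim, fun k => k.elim, fun k => k.elim,
      fun k => k.elim, fun k => k.elim, fun k => k.elim, ?_⟩
    simp [pos_iff_ne_zero.2 hε]
  | succ m ih =>
    intro ε hε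
    have hε2 : ε / 2 ≠ 0 := (ENNReal.half_pos hε).ne'
    obtain ⟨ι, _, r, Φ, h1, h2, h3, -, h5⟩ := ih (ε / 2) hε2
    by_cases hm : m < D.N
    · have hcl : IsClosed (⋃ k, Φ k '' Sq 0 (r k)) :=
        isClosed_iUnion_of_finite fun k =>
          ((sq_cpt (r k)).image_of_continuousOn (h1 k).2.cont).isClosed
      obtain ⟨ι', _, r', Φ', g1, g2, g3, g4, g5⟩ := one hLoc μ D hD φ η hη ⟨m, hm⟩ _ hcl (ε / 2) hε2
      refine ⟨ι ⊕ ι', inferInstance, Sum.elim r r', Sum.elim Φ Φ', ?_, ?_, ?_,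
        fun k => subset_univ _, ?_⟩
      · rintro (k | k)
        · exact h1 k
        · exact g1 k
      · have hx : ∀ (k : ι) (l : ι'), Disjoint (Φ k '' Sq 0 (r k)) (Φ' l '' Sq 0 (r' l)) := by
          intro k l
          rw [Set.disjoint_left]
          intro x hx hx'
          exact g4 l hx' (mem_iUnion.2 ⟨k, hx⟩)
        rintro (k | k) (l | l) hkl
        · exact h2 k l (fun h => hkl (by rw [h]))
        · exact hx k l
        · exact (hx l k).symm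
        · exact g2 k l (fun h => hkl (by rw [h]))
      · rintro (k | k)
        · exact h3 k
        · exact g3 k
      · have hsub : (⋃ (j : Fin D.N) (_ : (j : ℕ) < m + 1), D.U j) \
            (⋃ k : ι ⊕ ι', Sum.elim Φ Φ' k '' Sq 0 (Sum.elim r r' k)) ⊆
            ((⋃ (j : Fin D.N) (_ : (j : ℕ) < m), D.U j) \ ⋃ k, Φ k '' Sq 0 (r k)) ∪
            ((D.U ⟨m, hm⟩ \ ⋃ k, Φ k '' Sq 0 (r k)) \ ⋃ k, Φ' k '' Sq 0 (r' k)) := by
          rintro x ⟨hx1, hx2⟩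
          rw [mem_iUnion₂] at hx1
          obtain ⟨j, hj, hxj⟩ := hx1
          have hn1 : x ∉ ⋃ k, Φ k '' Sq 0 (r k) := fun h => hx2 (by
            rw [mem_iUnion] at h ⊢
            obtain ⟨k, hk⟩ := h
            exact ⟨Sum.inl k, hk⟩)
          have hn2 : x ∉ ⋃ k, Φ' k '' Sq 0 (r' k) := fun h => hx2 (by
            rw [mem_iUnion] at h ⊢
            obtain ⟨k, hk⟩ := h
            exact ⟨Sum.inr k, hk⟩)
          rcases Nat.lt_succ_iff_lt_or_eq.1 hj with hjm | hjm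
          · exact Or.inl ⟨mem_iUnion₂.2 ⟨j, hjm, hxj⟩, hn1⟩
          · have : j = ⟨m, hm⟩ := Fin.ext hjm
            rw [this] at hxj
            exact Or.inr ⟨⟨hxj, hn1⟩, hn2⟩
        calc _ ≤ _ := measure_mono hsub
          _ ≤ _ := measure_union_le _ _
          _ < ε / 2 + ε / 2 := ENNReal.add_lt_add h5 g5
          _ = ε := ENNReal.add_halves ε
    · refine ⟨ι, inferInstance, r, Φ, h1, h2, h3, fun k => subset_univ _, ?_⟩
      have hsub : (⋃ (j : Fin D.N) (_ : (j : ℕ) < m + 1), D.U j) \ (⋃ k, Φ k '' Sq 0 (r k)) ⊆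
          (⋃ (j : Fin D.N) (_ : (j : ℕ) < m), D.U j) \ ⋃ k, Φ k '' Sq 0 (r k) := by
        rintro x ⟨hx1, hx2⟩
        rw [mem_iUnion₂] at hx1
        obtain ⟨j, hj, hxj⟩ := hx1
        refine ⟨mem_iUnion₂.2 ⟨j, ?_, hxj⟩, hx2⟩
        have := j.2
        omega
      calc _ ≤ _ := measure_mono hsub
        _ < ε / 2 := h5
        _ ≤ ε := ENNReal.half_le_self

theorem cov (hLoc : StLoc) : StCov := by
  intro M _ _ _ _ μ D hD φ η hη
  obtain ⟨ι, _, r, Φ, h1, h2, h3, -, h5⟩ := steps hLoc μ D hD φ η hη D.N (ENNReal.ofReal η)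
    (ENNReal.ofReal_pos.2 hη).ne'
  have hcov : (⋃ (j : Fin D.N) (_ : (j : ℕ) < D.N), D.U j) = univ := by
    rw [eq_univ_iff_forall]
    intro x
    obtain ⟨i, hi⟩ := hD.cover x
    exact mem_iUnion₂.2 ⟨i, i.2, hi⟩
  rw [hcov] at h5
  have e := Fintype.equivFin ι
  refine ⟨Fintype.card ι, fun k => r (e.symm k), fun k => Φ (e.symm k),
    (⋃ k : Fin (Fintype.card ι), Φ (e.symm k) '' interior (Sq 0 (r (e.symm k))))ᶜ,
    fun k => h1 _, fun k l hkl => h2 _ _ (fun h => hkl (e.symm.injective h)), fun k => h3 _,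
    (isOpen_iUnion fun k => (h1 _).2.opn).isClosed_compl, fun x => ?_, ?_⟩
  · by_cases hx : x ∈ ⋃ k : Fin (Fintype.card ι), Φ (e.symm k) '' interior (Sq 0 (r (e.symm k)))
    · right
      obtain ⟨k, hk⟩ := mem_iUnion.1 hx
      exact ⟨k, image_mono interior_subset hk⟩
    · exact Or.inl hx
  · have hsub : (⋃ k : Fin (Fintype.card ι), Φ (e.symm k) '' interior (Sq 0 (r (e.symm k))))ᶜ ⊆
        (univ \ ⋃ k, Φ k '' Sq 0 (r k)) ∪ ⋃ k, Φ k '' (Sq 0 (r k) \ interior (Sq 0 (r k))) := by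
      intro x hx
      by_cases hxs : x ∈ ⋃ k, Φ k '' Sq 0 (r k)
      · right
        obtain ⟨k, y, hy, rfl⟩ := mem_iUnion.1 hxs
        refine mem_iUnion.2 ⟨k, y, ⟨hy, fun h => hx ?_⟩, rfl⟩
        refine mem_iUnion.2 ⟨e k, ?_⟩
        rw [e.symm_apply_apply]
        exact ⟨y, h, rfl⟩
      · exact Or.inl ⟨mem_univ _, hxs⟩
    have h0 : μ (⋃ k, Φ k '' (Sq 0 (r k) \ interior (Sq 0 (r k)))) = 0 :=
      measure_iUnion_null fun k => (h1 k).2.bdr
    calc _ ≤ _ := measure_mono hsub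
      _ ≤ _ := measure_union_le _ _
      _ = μ (univ \ ⋃ k, Φ k '' Sq 0 (r k)) := by rw [h0, add_zero]
      _ < _ := h5

end Pool.Agent.Y219.QR
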